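import Pool.Agent.Lib_helper82.BR.NFinal

/-!
# MP_45e720_ag: rigidity of Brody curves and Lang's problem

`X` is a compact complex manifold such that the line bundle `O(1)` on the bundle `Gr(2, TX)` of
tangent 2-planes is ample (`PlaneAmple`): some `O(k)`, `k > 0`, is generated by sections which
define an immersion of `Gr(2, TX)` into a projective space. If `X` is a surface, then
`Gr(2, TX) = X`, the sections of `O(k)` are the `k`-canonical forms, and the condition says that
the canonical bundle of `X` is ample (`CanonicalAmple`). (Lang's problem in dimension two is open
only for such surfaces: all the other ones contain rational or elliptic curves, or are tori up to a
finite cover.)

A gauge (`IsGauge`) is a nonnegative upper semicontinuous function on the space of the entire curves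
in `X` which vanishes on the curves with derivative zero at the origin and is subharmonic along the
translates `g (z + ·)` of every entire curve `g`. Examples: the absolute value of an invariant jet
differential of any order and positive weight, more generally of any holomorphic function of the
`k`-jet which vanishes on the jets with derivative zero (`IsJetDifferential`), for `k = 1` of a
symmetric differential of positive degree; the speed for a singular hermitian or Finsler metric of
nonpositive curvature (`IsSubharmonicSpeed`). An entire curve is null (`IsNullCurve`) if all gauges
vanish along it; in particular it is annihilated by all jet differentials as above, of all orders.
(A uniformly immersed Brody curve `f`, with derivative bounded from above and from below, is not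
null: the function which is `1` on the limits of translates of `f` and `0` on all other curves is a
gauge.)

The theorem. Every Brody curve in `X` (an entire curve with bounded derivative) is doubly periodic,
i.e. it factors through an elliptic curve, or null. Consequently, if the null Brody curves in `X` are
constant, then the following are equivalent: `X` is Brody hyperbolic; every holomorphic map from a
complex torus to `X` is constant; every holomorphic map from an elliptic curve to `X` is constant.
(For example, all null curves are constant if `X` has a Finsler metric such that the speed of every
entire curve is subharmonic; see `null_const_of_nonposCurved`.)

Idea of the proof. The space of the uniformly immersed Brody curves with given bounds is compact,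
and `ℂ` acts on it by translations. Two such curves which stay close to each other (up to a change
of the parameter) over a half-plane have the same image: in local coordinates the displacement,
normalised to be transversal, and the velocity span a plane, and the sections of `O(k)` on this
plane give a vector valued holomorphic function whose logarithm satisfies a strict submean
inequality on discs of a fixed radius; a bounded function on a half-plane with this property
(up to small errors from the changes of coordinates) is `-∞`. Since this holds for the half-planes
in all directions, two curves which are close on a large disc are equal up to an affine change
of the parameter (otherwise look at the first point where they are no longer close, and pass to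
the limit). Among the translates of a curve by multiples of a large number there are two which are
close on a large disc; so there are periods in two directions. A gauge is bounded on the translates
of a Brody curve, hence constant along it (Liouville); if the constant is not zero, then the
curve is uniformly immersed, since otherwise some limit of translates has derivative zero at the
origin.
-/

open scoped Manifold ContDiff

namespace Pool.Agent.Results.MP_45e720_ag.BrodyRigidity

open Pool.Agent Pool.Agent.BrodyRigid

theorem result (E X : Type) [NormedAddCommGroup E] [NormedSpace ℂ E] [FiniteDimensional ℂ E]
    [TopologicalSpace X] [CompactSpace X] [T2Space X] [ChartedSpace E X]
    [IsManifold 𝓘(ℂ, E) ω X] (hX : CanonicalAmple E X ∨ PlaneAmple E X) :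
    (∀ f : C(ℂ, X), IsBrodyCurve (E := E) f → DoublyPeriodic f ∨ IsNullCurve E X f) ∧
      ((∀ f : C(ℂ, X), IsBrodyCurve (E := E) f → IsNullCurve E X f → ∀ z z', f z = f z') →
        List.TFAE [SS.BrodyHyperbolic E X, SS.NoTorusMaps E X, NoEllipticMaps E X]) :=
  main_null hX

end Pool.Agent.Results.MP_45e720_ag.BrodyRigidity
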