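import Pool.Agent.Lib_helper58.ND.Main

/-!
# MP_45e720_ag: Lang's question for surfaces whose null germs are algebraic

`X` is a compact connected complex surface with ample canonical bundle (`CanonicalAmple`). (By the
classification of surfaces a projective surface without nonconstant maps from tori has an ample
canonical bundle, so for surfaces the question is open only in this case.)

A jet gauge (`IsJetGauge`) is a nonnegative upper semicontinuous function `L` of the `k`-jets of
germs of curves which vanishes on the germs with derivative zero and is subharmonic along all
holomorphic discs. Examples: the absolute value of an invariant jet differential `P` (with values
in the trivial bundle: no negativity is needed); the norm of an invariant jet differential with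
values in `A⁻¹`, `A` ample; the supremum over the lifts of a germ of `|P|`, `P` a bounded
invariant jet differential of a covering space of `X`; the speed for a hermitian metric of
nonpositive holomorphic sectional curvature, and all jet metrics of nonpositive curvature. A germ
is null (`IsNullGerm`) if all jet gauges vanish along it.

The theorem. Every nonconstant Brody curve in `X` (an entire curve with bounded derivative) lies
in a rational or elliptic curve, or it is Zariski dense and all its germs are null. Hence, if all
null germs of `X` or of a finite unramified covering of `X` are algebraic (`NullGermsAlgebraic`:
they lie in the zero set of a pluricanonical form or in a fibre of a map to a torus), then `X` is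
Kobayashi hyperbolic if and only if all holomorphic maps from complex tori to `X` are constant; it
even suffices that all holomorphic maps from elliptic curves to `X` are constant. This criterion
holds if a finite unramified covering of `X` has a nonconstant holomorphic map to a torus or two
symmetric differentials without common zero direction at some point (`VirtuallyIrregular`). It
contains the classical criterion that the base locus of the invariant jet differentials with
values in `A⁻¹` is algebraic; but for a compact quotient of the bidisc by an irreducible group
this base locus is not proper, whereas the two Poincaré metrics are jet gauges and there is no
null germ with nonzero derivative.

Remarks (not proved here). (a) A Zariski dense Brody curve with null germs is annihilated by all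
symmetric differentials, so if there is one `σ ≠ 0` on `X` or on a finite unramified covering,
then the curve is tangent to the multi-foliation `σ = 0`, and McQuillan's theorem (1998) says that
it is not Zariski dense: so the question has a positive answer for all surfaces with a nonzero
symmetric differential on a finite unramified covering. These are, for instance, the surfaces with
irregular coverings, those with `c₁² > c₂` (Bogomolov) and those whose fundamental group has a
linear representation with infinite image (Brunebarbe, Klingler, Totaro). (b) If the fundamental
group does not have property (T), then (Mok 1995) there is a nonzero closed holomorphic one-form
`w` with values in a flat unitary Hilbert bundle, and `‖w (c' (0))‖` is a jet gauge.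

Idea of the proof. (1) Let `h` be a Brody curve. The value of a jet gauge on the germ of `h` at
`z` is a bounded upper semicontinuous subharmonic function of `z` in the plane, so it is constant.
If it is not zero, then the derivative of `h` is bounded below, since a limit of translates of `h`
with vanishing derivative at the origin would have value zero. By the rigidity of immersed Brody
curves such an `h` is doubly periodic: translates of `h` which are close to each other on a
half-plane coincide up to reparametrisation, since their normal displacement would define bounded
holomorphic functions `τ (h', δ)`, `τ` the pluricanonical forms, and these would be constant.

(2) If `h` is not Zariski dense, then some pluricanonical form vanishes along `h`, not identically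
on `X`; Siegel's lemma gives homogeneous relations between any three coordinates of `h` in the
projective space, and the plane theorem (a Brody curve of transcendence degree one is doubly
periodic or rational) and the immersion `X → ℙ ^ n` give a doubly periodic curve `g` whose image
contains that of `h`. The same holds if `h` lies in a fibre of a map to a torus.

(3) If there are no nonconstant doubly periodic curves in `X`, then there are none in the finite
unramified covering `X'`, a nonconstant Brody curve in `X'` would have null germs by (1),
algebraic by hypothesis, and would lie in the image of a doubly periodic curve by the identity
theorem and (2). So `X'` and `X` are hyperbolic.

(4) Maps to tori are constant along null germs, since their derivatives are jet gauges, and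
symmetric differentials vanish; the resultant of two symmetric differentials without common zero
direction at some point is a nonzero pluricanonical form which vanishes along the null germs.
-/

set_option autoImplicit false

open scoped Manifold ContDiff

namespace Pool.Agent.Results.MP_45e720_ag.NullGerms

open Pool.Agent Pool.Agent.BrodyRigid Pool.Agent.StrongLang Pool.Agent.NullCurves

theorem result (E X : Type) [NormedAddCommGroup E] [NormedSpace ℂ E] [FiniteDimensional ℂ E]
    [TopologicalSpace X] [CompactSpace X] [T2Space X] [ConnectedSpace X] [ChartedSpace E X]
    [IsManifold 𝓘(ℂ, E) ω X] (hX : CanonicalAmple E X) :
    (∀ h : ℂ → X, IsBrodyCurve (E := E) h → (∃ z z', h z ≠ h z') →
      InTorusCurve E h ∨ (ZariskiDense E h ∧ ∀ z : ℂ, IsNullGerm E (fun w => h (z + w)))) ∧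
    (NullGermsAlgebraic E X →
      List.TFAE [NoEllipticMaps E X, SS.NoTorusMaps E X, SS.BrodyHyperbolic E X,
        ∀ x : X, HyperbolicAt E x]) ∧
    (VirtuallyIrregular E X → NullGermsAlgebraic E X) :=
  ⟨fun _ hh hne => ND.brody_dichotomy hX hh hne, ND.null_main hX, ND.irregular_null hX.1⟩

end Pool.Agent.Results.MP_45e720_ag.NullGerms
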